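import Pool.Agent.Helper57_C2.Stmts
import Pool.Agent.Helper35_K9.CHQ
import Pool.Agent.Helper56_K9.EXP
import Pool.Agent.Helper75_K9.LBR
import Pool.Agent.Helper2_K9.PUG

/-!
# Squad C2, row YQV: the terms with `|Q| = |V|`
-/

open scoped BigOperators

noncomputable section

namespace Pool.Agent.PP.C2.H39

open Pool.Agent.Helper51_AWC Pool.Agent.Helper79_WRA Pool.Agent.PP Pool.Agent.PP.KF
open Pool.Agent.PP.K9

attribute [local instance] Ideal.Quotient.field

theorem fz0 {ι : Sort*} {g : ι → ℤ} (h : ∀ i, g i = 0) : ∑ᶠ i : ι, g i = 0 := by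
  have : g = fun _ => 0 := funext h
  rw [this]
  exact finsum_zero

/-- the alternating sum of an idempotent whose good subgroups are trivial -/
theorem yy_of_triv {ℓ : ℕ} [Fact ℓ.Prime] {F : Type} [Field F] (hF : GoodF ℓ F) {A : Type}
    [Group A] [Finite A] {f : A → F} (hf : IsIdem f)
    (h1 : ∀ R : Subgroup A, IsPGroup ℓ R → Gd f R → Nat.card R ≤ 1) :
    YY ℓ ⊤ f = (Nat.card A : ℤ) * lnum (⊤ : Subgroup A) f := by
  have hpr : ℓ.Prime := Fact.out
  have hng1 : ∀ R : Subgroup A, Nat.card R = ℓ → IsPGroup ℓ R ∧ ¬ Gd f R := by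
    intro R hR
    have hp : IsPGroup ℓ R := IsPGroup.of_card (n := 1) (by rw [hR, pow_one])
    refine ⟨hp, fun hg => ?_⟩
    have := h1 R hp hg
    rw [hR] at this
    exact absurd this (by have := hpr.two_le; omega)
  have hng2 : ∀ R : Subgroup A, Nat.card R = ℓ ^ 2 → IsPGroup ℓ R ∧ ¬ Gd f R := by
    intro R hR
    have hp : IsPGroup ℓ R := IsPGroup.of_card hR
    refine ⟨hp, fun hg => ?_⟩
    have h2 := h1 R hp hg
    rw [hR] at h2
    have h3 : 1 < ℓ ^ 2 := Nat.one_lt_pow (by norm_num) hpr.one_lt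
    omega
  have hE := H56.exp ℓ F hF A f hf (fun R hR hg => (h1 R hR hg).trans
    (Nat.one_le_pow _ _ hpr.pos))
  have e1 : (∑ᶠ (Q : Subgroup A) (_ : Nat.card Q = ℓ),
        (Nat.card (Subgroup.normalizer (Q : Set A)) : ℤ) *
          lnum (Subgroup.normalizer (Q : Set A)) f) = 0 := by
    refine fz0 fun Q => fz0 fun hQ => ?_
    obtain ⟨hp, hg⟩ := hng1 Q hQ
    rw [(H75.lbr ℓ F hF A f hf Q _ hp Subgroup.le_normalizer le_rfl).2 hg]
    simp
  have e2 : (∑ᶠ (V : Subgroup A) (_ : Nat.card V = ℓ ^ 2),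
        (Nat.card (Subgroup.normalizer (V : Set A)) : ℤ) *
          lnum (Subgroup.normalizer (V : Set A)) f) = 0 := by
    refine fz0 fun Q => fz0 fun hQ => ?_
    obtain ⟨hp, hg⟩ := hng2 Q hQ
    rw [(H75.lbr ℓ F hF A f hf Q _ hp Subgroup.le_normalizer le_rfl).2 hg]
    simp
  have e3 : (∑ᶠ (Q : Subgroup A) (_ : Nat.card Q = ℓ), ∑ᶠ (V : Subgroup A)
        (_ : Nat.card V = ℓ ^ 2 ∧ Q ≤ V),
        (Nat.card (Subgroup.normalizer (Q : Set A) ⊓ Subgroup.normalizer (V : Set A) :
          Subgroup A) : ℤ) *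
          lnum (Subgroup.normalizer (Q : Set A) ⊓ Subgroup.normalizer (V : Set A)) f) = 0 := by
    refine fz0 fun Q => fz0 fun hQ => fz0 fun V => fz0 fun hV => ?_
    obtain ⟨hp, hg⟩ := hng1 Q hQ
    rw [(H75.lbr ℓ F hF A f hf Q _ hp (le_inf Subgroup.le_normalizer
      (hV.2.trans Subgroup.le_normalizer)) inf_le_left).2 hg]
    simp
  rw [hE, e1, e2, e3]
  ring

theorem yqv : YqvStmt := by
  intro ℓ _ M _ hM G _ _ e he V hV Q hQ hc
  have hpr : ℓ.Prime := Fact.out
  have hF : GoodF ℓ (FF M) := H50.fld ℓ Fact.out M hM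
  have hCN : Subgroup.centralizer (Q : Set G) ≤ Subgroup.normalizer (Q : Set G) :=
    Subgroup.centralizer_le_normalizer _
  have hf := (H20.brm ℓ (FF M) hF G Q (Subgroup.normalizer (Q : Set G)) hQ hCN le_rfl).2.2 e he.1
  obtain ⟨p, hpdef⟩ : ∃ p, p = QuotientGroup.mk' (Q.subgroupOf (Subgroup.normalizer (Q : Set G))) :=
    ⟨_, rfl⟩
  have hp : Function.Surjective p := by
    rw [hpdef]
    exact QuotientGroup.mk'_surjective _
  have hker : p.ker = Q.subgroupOf (Subgroup.normalizer (Q : Set G)) := by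
    rw [hpdef]
    exact QuotientGroup.ker_mk' _
  have hkc : Nat.card p.ker = Nat.card Q := by
    rw [hker]
    exact Nat.card_congr (Subgroup.subgroupOfEquivOfLe Subgroup.le_normalizer).toEquiv
  have hkp : IsPGroup ℓ p.ker := by
    rw [hker]
    exact hQ.comap_subtype
  have hid := PP.H75.push_isIdem hp hf
  have h1 : ∀ R : Subgroup (Subgroup.normalizer (Q : Set G) ⧸
      Q.subgroupOf (Subgroup.normalizer (Q : Set G))), IsPGroup ℓ R →
      Gd (PP.H75.push p (fun t : Subgroup.normalizer (Q : Set G) => br Q e t)) R →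
      Nat.card R ≤ 1 := by
    intro R hR hg
    have h1 : p.ker ≤ R.comap p := by
      intro x hx
      rw [MonoidHom.mem_ker] at hx
      rw [Subgroup.mem_comap, hx]
      exact R.one_mem
    have h2 : IsPGroup ℓ (R.comap p) := (PP.H75.isPGroup_comap_iff hp hkp R).2 hR
    have h3 := (H02.pug ℓ (FF M) hF _ _ p hp hkp _ hf (R.comap p) h1 h2).2 (by
      rw [Subgroup.map_comap_eq_self_of_surjective hp]
      exact hg)
    obtain ⟨x, hx, hx2⟩ := h3
    have h4 : Gd e (H35.up p R) := by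
      refine ⟨(x : G), ?_, ?_⟩
      · rw [Subgroup.mem_centralizer_iff]
        rintro _ ⟨y, hy, rfl⟩
        exact congrArg Subtype.val (Subgroup.mem_centralizer_iff.1 hx y hy)
      · intro h0
        apply hx2
        by_cases hc : (x : G) ∈ Subgroup.centralizer (Q : Set G)
        · change br Q e x = 0
          rw [H66.br_of_mem hc, h0]
        · exact H66.br_of_not_mem hc
    have h5 := hV.mx (H35.up p R) (h2.map _) h4
    rw [H35.card_up hp, hkc, hc] at h5
    have hV0 : 0 < Nat.card V := Nat.card_pos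
    exact Nat.le_of_mul_le_mul_left (by rw [mul_one]; exact h5) hV0
  have h2 := yy_of_triv hF hid h1
  have h3 : lnum (Subgroup.normalizer (Q : Set G)) e = lnum (⊤ : Subgroup _)
      (PP.H75.push p (fun t : Subgroup.normalizer (Q : Set G) => br Q e t)) := by
    rw [(H75.lbr ℓ (FF M) hF G e he.1 Q _ hQ Subgroup.le_normalizer le_rfl).1,
      ← H35.lnum_up hF hp hkp ⊤ (br Q e), H35.up_top]
  have h4 : Nat.card (Subgroup.normalizer (Q : Set G)) = Nat.card Q *
      Nat.card (Subgroup.normalizer (Q : Set G) ⧸ Q.subgroupOf (Subgroup.normalizer (Q : Set G))) := by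
    have := H35.card_up hp ⊤
    rw [H35.up_top, hkc, Subgroup.card_top] at this
    exact this
  have h5 : yq ℓ Q e = YY ℓ ⊤
      (PP.H75.push p (fun t : Subgroup.normalizer (Q : Set G) => br Q e t)) := by
    rw [hpdef]
    rfl
  rw [h5, h2, ← h3, h4]
  push_cast
  ring

end Pool.Agent.PP.C2.H39
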