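import Pool.Agent.Helper57_C2.Stmts
import Pool.Agent.Helper57_K9.Gq9
import Pool.Agent.Helper69_K9.Fmg

/-!
# Squad C2, row DTF: defect groups
-/

open scoped BigOperators

noncomputable section

namespace Pool.Agent.PP.C2.H39

open Pool.Agent.Helper51_AWC Pool.Agent.Helper79_WRA Pool.Agent.PP Pool.Agent.PP.KF
open Pool.Agent.PP.K9

attribute [local instance] Ideal.Quotient.field

theorem conjS_le_cent {G : Type} [Group G] {V : Subgroup G} {g y : G}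
    (h : ∀ d ∈ V, g * d * g⁻¹ * y = y * (g * d * g⁻¹)) :
    conjS g V ≤ Subgroup.centralizer ({y} : Set G) := by
  rintro _ ⟨d, hd, rfl⟩
  rw [Subgroup.mem_centralizer_singleton_iff]
  exact h d hd

/-- two defect groups are conjugate -/
theorem isDef_conj {ℓ : ℕ} [Fact ℓ.Prime] {M : Ideal (integralClosure ℤ ℂ)} {G : Type} [Group G]
    [Finite G] {χ : G → ℂ} {V D : Subgroup G} (hV : ML.IsDef ℓ M χ V) (hD : ML.IsDef ℓ M χ D) :
    ∃ g : G, D = conjS g V := by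
  have key : ∀ {V D : Subgroup G}, ML.IsDef ℓ M χ V → ML.IsDef ℓ M χ D →
      ∃ g : G, V ≤ conjS g D := by
    intro V D hV hD
    obtain ⟨hVp, -, hV3⟩ := hV
    obtain ⟨hDp, ⟨x, hx, hDx, hi⟩, -⟩ := hD
    obtain ⟨g, hg⟩ := hV3 x hx
    have h1 : IsPGroup ℓ (conjS g V) := hVp.map _
    obtain ⟨c, -, hc⟩ := H69.conj_le hDx (conjS_le_cent hg) hDp hi h1
    refine ⟨g⁻¹ * c, ?_⟩
    rw [← conjS_conjS]
    intro v hv
    have h2 : g * v * g⁻¹ ∈ conjS c D := hc ⟨v, hv, rfl⟩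
    refine ⟨g * v * g⁻¹, h2, ?_⟩
    change g⁻¹ * (g * v * g⁻¹) * g⁻¹⁻¹ = v
    group
  obtain ⟨g, hg⟩ := key hV hD
  obtain ⟨h, hh⟩ := key hD hV
  refine ⟨h, Subgroup.eq_of_le_of_card_ge hh ?_⟩
  rw [card_conjS]
  have := Subgroup.card_le_of_le hg
  rwa [card_conjS] at this

theorem dtf (hT : TdfStmt) : DtfStmt := by
  intro ℓ _ M _ hM G _ _ e he χ hχ hres D hD
  obtain ⟨V, hV⟩ := H57.exists_tp (ℓ := ℓ) he.2.1
  obtain ⟨h, rfl⟩ := isDef_conj (hT ℓ M hM G e he V hV χ hχ hres) hD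
  refine ⟨hD.1, ?_, fun Q hQ hQg => ?_⟩
  · obtain ⟨y, hy, hy0⟩ := hV.gd
    refine ⟨h * y * h⁻¹, ?_, ?_⟩
    · rw [Subgroup.mem_centralizer_iff]
      rintro _ ⟨d, hd, rfl⟩
      change h * d * h⁻¹ * (h * y * h⁻¹) = h * y * h⁻¹ * (h * d * h⁻¹)
      have h1 : d * y = y * d := Subgroup.mem_centralizer_iff.1 hy d hd
      calc h * d * h⁻¹ * (h * y * h⁻¹) = h * (d * y) * h⁻¹ := by group
        _ = h * (y * d) * h⁻¹ := by rw [h1]
        _ = h * y * h⁻¹ * (h * d * h⁻¹) := by group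
    · rw [he.1.1 y h]
      exact hy0
  · rw [card_conjS]
    exact hV.mx Q hQ hQg

end Pool.Agent.PP.C2.H39
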