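import Pool.Agent.C2.Stmts

/-! # Squad C2M, piece ZCU: potentials modulo constants are the cuts -/

set_option autoImplicit false

namespace Pool.Agent.C2.H39

open Finset Pool.Agent.C2

theorem const_of_conn {V E F : Type} [Fintype E] [Field F] (s t : E → V) (hc : Conn s t univ)
    (f : V → F) (hf : ∀ e, f (t e) = f (s e)) (x y : V) : f x = f y := by
  have h := hc x y
  induction h with
  | refl => rfl
  | tail _ hst ih =>
    obtain ⟨e, _, h | h⟩ := hst
    · rw [ih, ← h.1, ← h.2, hf]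
    · rw [ih, ← h.1, ← h.2, hf]

theorem zcu : ZcuStmt := by
  classical
  intro F _ _ V E _ _ _ _ _ s t hc
  obtain ⟨v₀⟩ := ‹Nonempty V›
  -- difference
  have hcut : ∀ u : V → F, (fun e => u (t e) - u (s e)) ∈ cut F s t := by
    intro u
    refine ⟨u, ?_⟩
    funext e
    rfl
  have hcut' : ∀ y ∈ cut F s t, ∃ u : V → F, ∀ e, u (t e) - u (s e) = y e := by
    rintro y ⟨u, hu⟩
    refine ⟨u, fun e => ?_⟩
    rw [← hu]
    rfl
  let A : Type := {x : Fin 4 → V → F // ∀ e, (x 0 (t e) - x 0 (s e)) * (x 3 (t e) - x 3 (s e)) ≠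
    (x 1 (t e) - x 1 (s e)) * (x 2 (t e) - x 2 (s e))}
  let B : Type := {x : Fin 4 → E → F // (∀ i, x i ∈ cut F s t) ∧
    ∀ e, x 0 e * x 3 e ≠ x 1 e * x 2 e}
  let φ : A → (Fin 4 → F) × B := fun x =>
    (fun i => x.1 i v₀, ⟨fun i e => x.1 i (t e) - x.1 i (s e), fun i => hcut (x.1 i), x.2⟩)
  have hφ : Function.Bijective φ := by
    constructor
    · intro x y hxy
      have h1 : ∀ i, x.1 i v₀ = y.1 i v₀ := fun i => congrFun (congrArg Prod.fst hxy) i
      have h2 : ∀ i e, x.1 i (t e) - x.1 i (s e) = y.1 i (t e) - y.1 i (s e) := fun i e =>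
        congrFun (congrFun (congrArg Subtype.val (congrArg Prod.snd hxy)) i) e
      apply Subtype.ext
      funext i v
      have h3 := const_of_conn s t hc (fun v => x.1 i v - y.1 i v) (fun e => by
        have := h2 i e
        show x.1 i (t e) - y.1 i (t e) = x.1 i (s e) - y.1 i (s e)
        linear_combination this) v v₀
      have h4 := h1 i
      have h3' : x.1 i v - y.1 i v = x.1 i v₀ - y.1 i v₀ := h3
      rw [h4, sub_self] at h3'
      exact sub_eq_zero.1 h3'
    · rintro ⟨c, ⟨y, hy1, hy2⟩⟩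
      choose u hu using fun i => hcut' (y i) (hy1 i)
      have hd : ∀ i e, (u i (t e) - u i v₀ + c i) - (u i (s e) - u i v₀ + c i) = y i e := by
        intro i e
        rw [← hu i e]; ring
      refine ⟨⟨fun i v => u i v - u i v₀ + c i, fun e => ?_⟩, ?_⟩
      · show ((u 0 (t e) - u 0 v₀ + c 0) - (u 0 (s e) - u 0 v₀ + c 0)) *
          ((u 3 (t e) - u 3 v₀ + c 3) - (u 3 (s e) - u 3 v₀ + c 3)) ≠
          ((u 1 (t e) - u 1 v₀ + c 1) - (u 1 (s e) - u 1 v₀ + c 1)) *
          ((u 2 (t e) - u 2 v₀ + c 2) - (u 2 (s e) - u 2 v₀ + c 2))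
        rw [hd, hd, hd, hd]
        exact hy2 e
      · refine Prod.ext ?_ (Subtype.ext ?_)
        · funext i
          show u i v₀ - u i v₀ + c i = c i
          ring
        · funext i e
          exact hd i e
  have h1 : ZP F s t = Nat.card A := rfl
  have h2 : np (cut F s t) = Nat.card B := rfl
  rw [h1, h2, Nat.card_congr (Equiv.ofBijective φ hφ), Nat.card_prod, Nat.card_eq_fintype_card,
    Fintype.card_fun, Fintype.card_fin]

end Pool.Agent.C2.H39
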